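import Pool.Agent.Y421.SF.Main
import Pool.Agent.Y421.SF.Asym
import Pool.Agent.Y421.SF.Ram

/-!
The smallest Ramsey number of a graph with `n` vertices and no isolated vertex is
`n + log_2 n - log_2 log_2 n + O(1)`.

Upper bound: star forests with about `log_2 n - log_2 log_2 n` stars, the smallest of size about
`k / 8` and each further one about as large as all smaller ones together. In one colour the stars
are packed from the largest to the smallest; if this fails before the last star in both colours,
double counting gives a contradiction. If it fails in one colour at the last star, then all but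
`k - 1` vertices send few edges of that colour into a set `U` of about `k` vertices, and the
forest is embedded in the other colour with all centres in `U`, by a greedy choice of the centres
and the theorem of Hall.
Lower bound: each such graph contains a spanning star forest.
-/

set_option autoImplicit false

open Filter Topology

namespace Pool.Agent.Results.MP_624632_co.SmallestRamsey

/-- The diagonal Ramsey number `r(G)` of a finite graph `G`: the least `N` such that for every
colouring of the edges of `K_N` with two colours (the edges of `R` and the edges of its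
complement `Rᶜ`) one of the two colour classes contains a copy of `G`. -/
noncomputable def ramseyNumber {n : ℕ} (G : SimpleGraph (Fin n)) : ℕ :=
  sInf {N : ℕ | ∀ R : SimpleGraph (Fin N), G.IsContained R ∨ G.IsContained Rᶜ}

/-- `f n` is the least value of `r(G)` over all graphs `G` with exactly `n` vertices and no
isolated vertex. -/
noncomputable def f (n : ℕ) : ℕ :=
  sInf {r : ℕ | ∃ G : SimpleGraph (Fin n), (∀ v, ∃ w, G.Adj v w) ∧ ramseyNumber G = r}

/-- The set in the definition of `r(G)` is not empty, so the least element is attained. -/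
theorem ramseyNumber_spec {n : ℕ} (G : SimpleGraph (Fin n)) :
    ∀ R : SimpleGraph (Fin (ramseyNumber G)), G.IsContained R ∨ G.IsContained Rᶜ :=
  Nat.sInf_mem (Y421.SF.ramsey_exists G)

/-- For `n ≥ 2` there is a graph as in the definition of `f n`, so the minimum is attained. -/
theorem f_spec (n : ℕ) (hn : 2 ≤ n) :
    ∃ G : SimpleGraph (Fin n), (∀ v, ∃ w, G.Adj v w) ∧ ramseyNumber G = f n := by
  refine Nat.sInf_mem (s := {r : ℕ | ∃ G : SimpleGraph (Fin n), (∀ v, ∃ w, G.Adj v w) ∧
    ramseyNumber G = r}) ⟨_, ⊤, ?_, rfl⟩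
  intro v
  have : Nontrivial (Fin n) := Fin.nontrivial_iff_two_le.mpr hn
  obtain ⟨w, hw⟩ := exists_ne v
  exact ⟨w, by rw [SimpleGraph.top_adj]; exact hw.symm⟩

open MP_705b7e_co.StarForestBounds in
theorem f_le (n k : ℕ) (hn : 1 ≤ n) (h1 : 10 * k ^ 2 ≤ n)
    (h2 : 8 * n ≤ 2 ^ (k - 1) * (k - 14)) : f n ≤ n + k + 1 := by
  obtain ⟨s, hs1, hs2, hA⟩ := Y421.SF.upper_explicit n k hn h1 h2
  have hcard : Fintype.card (Σ i : Fin k, Option (Fin (s i))) = n := by
    rw [card_vertices, hs2]
  let G : SimpleGraph (Fin n) := (starForest k s).overFin hcard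
  have e : starForest k s ≃g G := (starForest k s).overFinIso hcard
  have hG : ∀ v, ∃ w, G.Adj v w := by
    intro v
    obtain ⟨x, rfl⟩ := e.surjective v
    obtain ⟨i, x⟩ := x
    rcases x with _ | x
    · exact ⟨_, e.map_adj_iff.mpr (starForest_adj k s i ⟨0, hs1 i i.2⟩)⟩
    · exact ⟨_, e.map_adj_iff.mpr (starForest_adj k s i x).symm⟩
  have hle : f n ≤ ramseyNumber G := Nat.sInf_le ⟨G, hG, rfl⟩
  refine hle.trans (Nat.sInf_le ?_)
  intro R
  rcases hA R with h | h
  · exact Or.inl (e.symm.isContained.trans h)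
  · exact Or.inr (e.symm.isContained.trans h)

theorem le_f (n x : ℕ) (hn : 2 ≤ n) (h : f n ≤ n + x) :
    n ≤ (2 * x + 1) * 2 ^ (x + 1) + x + 3 := by
  obtain ⟨G, hG, hGf⟩ := f_spec n hn
  exact Y421.SF.lower_explicit n x (ramseyNumber G) hn G hG (by rw [hGf]; exact h)
    (ramseyNumber_spec G)

/-- The smallest Ramsey number `f n` of a graph with exactly `n` vertices and no isolated vertex
satisfies `f n = n + log_2 n - log_2 log_2 n + O(1)`, with error between `-3` and `7` for all
large `n`; in particular `(f n - n) / log_2 n` tends to `1`. -/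
theorem result :
    (∀ᶠ n : ℕ in atTop,
      (n : ℝ) + Real.logb 2 n - Real.logb 2 (Real.logb 2 n) - 3 ≤ f n ∧
      (f n : ℝ) ≤ n + Real.logb 2 n - Real.logb 2 (Real.logb 2 n) + 7) ∧
    Tendsto (fun n : ℕ => ((f n : ℝ) - n) / Real.logb 2 n) atTop (𝓝 1) := by
  have hmain := Y421.SF.asym f f_le le_f
  refine ⟨hmain, ?_⟩
  have hL : Tendsto (fun n : ℕ => Real.logb 2 (n : ℝ)) atTop atTop :=
    (Real.tendsto_logb_atTop (by norm_num)).comp tendsto_natCast_atTop_atTop
  have h0 : Tendsto (fun y : ℝ => Real.logb 2 y / y) atTop (𝓝 0) := by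
    have h1 := (Real.isLittleO_log_id_atTop).tendsto_div_nhds_zero.const_mul (1 / Real.log 2)
    rw [mul_zero] at h1
    refine h1.congr fun y => ?_
    simp only [id, Real.logb]
    ring
  have h1 : Tendsto (fun n : ℕ => Real.logb 2 (Real.logb 2 (n : ℝ)) / Real.logb 2 (n : ℝ))
      atTop (𝓝 0) := h0.comp hL
  have h2 : ∀ c : ℝ, Tendsto (fun n : ℕ => c / Real.logb 2 (n : ℝ)) atTop (𝓝 0) :=
    fun c => hL.const_div_atTop c
  have hlo : Tendsto (fun n : ℕ => 1 - Real.logb 2 (Real.logb 2 (n : ℝ)) / Real.logb 2 (n : ℝ)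
      - 3 / Real.logb 2 (n : ℝ)) atTop (𝓝 1) := by
    have := (h1.const_sub 1).sub (h2 3)
    simpa using this
  have hhi : Tendsto (fun n : ℕ => 1 - Real.logb 2 (Real.logb 2 (n : ℝ)) / Real.logb 2 (n : ℝ)
      + 7 / Real.logb 2 (n : ℝ)) atTop (𝓝 1) := by
    have := (h1.const_sub 1).add (h2 7)
    simpa using this
  refine tendsto_of_tendsto_of_tendsto_of_le_of_le' hlo hhi ?_ ?_
  · filter_upwards [hmain, hL.eventually (eventually_gt_atTop 0)] with n hn hpos
    rw [le_div_iff₀ hpos]
    have e : (1 - Real.logb 2 (Real.logb 2 (n : ℝ)) / Real.logb 2 (n : ℝ)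
      - 3 / Real.logb 2 (n : ℝ)) * Real.logb 2 (n : ℝ)
      = Real.logb 2 (n : ℝ) - Real.logb 2 (Real.logb 2 (n : ℝ)) - 3 := by
      field_simp
    rw [e]
    linarith [hn.1]
  · filter_upwards [hmain, hL.eventually (eventually_gt_atTop 0)] with n hn hpos
    rw [div_le_iff₀ hpos]
    have e : (1 - Real.logb 2 (Real.logb 2 (n : ℝ)) / Real.logb 2 (n : ℝ)
      + 7 / Real.logb 2 (n : ℝ)) * Real.logb 2 (n : ℝ)
      = Real.logb 2 (n : ℝ) - Real.logb 2 (Real.logb 2 (n : ℝ)) + 7 := by
      field_simp
    rw [e]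
    linarith [hn.2]

end Pool.Agent.Results.MP_624632_co.SmallestRamsey
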